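import Mathlib

set_option autoImplicit false
set_option linter.unusedSectionVars false

/-!
# Sets with few violations of closure under sums of three elements

In an elementary abelian 2-group `V`.
-/

namespace Pool.Agent.N345.SDP

open Finset

variable {V : Type} [AddCommGroup V] [Fintype V] [DecidableEq V]

/-- the number of elements `c` of `T` with `g + c ∈ T` -/
def N (T : Finset V) (g : V) : ℕ := (T.filter fun c => g + c ∈ T).card

/-- the number of ordered triples of elements of `T` whose sum is not in `T` -/
def badT (T : Finset V) : ℕ :=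
  ∑ a ∈ T, ∑ b ∈ T, (T.filter fun c => a + b + c ∉ T).card

theorem N_add_bad (T : Finset V) (g : V) :
    N T g + (T.filter fun c => g + c ∉ T).card = T.card := by
  rw [N, card_filter_add_card_filter_not]

theorem N_zero (T : Finset V) : N T 0 = T.card := by
  rw [N]
  congr 1
  ext c
  simp

theorem N_le (T : Finset V) (g : V) : N T g ≤ T.card := card_filter_le _ _

/-- inclusion and exclusion -/
theorem N_add (h2 : ∀ g : V, g + g = 0) (T : Finset V) (a b : V) :
    N T a + N T b ≤ N T (a + b) + T.card := by
  have h1 : ((T.filter fun c => a + c ∈ T) ∩ (T.filter fun c => b + c ∈ T)).card ≤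
      N T (a + b) := by
    refine card_le_card_of_injOn (fun x => b + x) ?_ ?_
    · intro x hx
      simp only [mem_filter, coe_inter, Set.mem_inter_iff, mem_coe] at hx
      simp only [coe_filter, Set.mem_ofPred_eq]
      refine ⟨hx.2.2, ?_⟩
      have : a + b + (b + x) = a + x := by
        rw [add_assoc, ← add_assoc b b x, h2, zero_add]
      rw [this]
      exact hx.1.2
    · intro x _ y _ h
      exact add_left_cancel h
  have h3 := card_union_add_card_inter (T.filter fun c => a + c ∈ T) (T.filter fun c => b + c ∈ T)
  have h4 : ((T.filter fun c => a + c ∈ T) ∪ (T.filter fun c => b + c ∈ T)).card ≤ T.card :=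
    card_le_card (union_subset (filter_subset _ _) (filter_subset _ _))
  simp only [N] at h1 ⊢
  omega

/-- double counting -/
theorem sum_N (T : Finset V) : ∑ g : V, N T g = T.card ^ 2 := by
  simp only [N, card_filter]
  rw [sum_comm]
  have : ∀ c ∈ T, ∑ g : V, (if g + c ∈ T then 1 else 0) = T.card := by
    intro c _
    rw [← card_filter]
    refine card_bij (fun g _ => g + c) ?_ ?_ ?_
    · intro g hg
      exact (mem_filter.1 hg).2
    · intro g _ g' _ h
      exact add_right_cancel h
    · intro t ht
      exact ⟨t - c, by simpa using ht, by simp⟩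
  rw [sum_congr rfl this, sum_const, smul_eq_mul, sq]

open scoped Classical in
theorem coset (h2 : ∀ g : V, g + g = 0) (T : Finset V) (hT : 0 < T.card)
    (hb : 64 * badT T < T.card ^ 3) :
    ∃ H : AddSubgroup V, ∃ t0 ∈ T, (∀ g, g ∈ H ↔ T.card < 2 * N T g) ∧
      (∀ g ∈ H, 3 * T.card < 4 * N T g) ∧ 8 * (T.filter fun c => t0 + c ∉ H).card < T.card := by
  classical
  set m := T.card with hm
  -- a good element
  obtain ⟨t0, ht0, hbad⟩ : ∃ t0 ∈ T,
      64 * ∑ b ∈ T, (T.filter fun c => t0 + b + c ∉ T).card < m ^ 2 := by
    by_contra hcon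
    push Not at hcon
    have h1 : ∑ a ∈ T, m ^ 2 ≤ ∑ a ∈ T, 64 * ∑ b ∈ T, (T.filter fun c => a + b + c ∉ T).card :=
      sum_le_sum hcon
    rw [sum_const, smul_eq_mul, ← mul_sum, ← hm] at h1
    have h3 : m * m ^ 2 = m ^ 3 := by ring
    rw [h3] at h1
    unfold badT at hb
    omega
  set P := T.filter fun b => 7 * m < 8 * N T (t0 + b) with hP
  have hPT : 8 * (T \ P).card < m := by
    have h1 : (T \ P).card * m ≤ 8 * ∑ b ∈ T, (T.filter fun c => t0 + b + c ∉ T).card := by
      rw [mul_sum, ← smul_eq_mul, ← sum_const]
      refine le_trans ?_ (sum_le_sum_of_subset (sdiff_subset (s := T) (t := P)))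
      refine sum_le_sum fun b hbP => ?_
      rw [mem_sdiff, hP, mem_filter, not_and] at hbP
      have h3 := hbP.2 hbP.1
      have h4 := N_add_bad T (t0 + b)
      omega
    have h5 : 8 * (T \ P).card * m < m * m := by nlinarith
    exact Nat.lt_of_mul_lt_mul_right h5
  -- the main step
  have key : ∀ g, m < 2 * N T g → 3 * m < 4 * N T g := by
    intro g hg
    obtain ⟨c, hc, hgc⟩ : ∃ c ∈ P, g + c ∈ P := by
      by_contra hcon
      push Not at hcon
      have h1 : (T.filter fun c => g + c ∈ T) ⊆
          (T \ P) ∪ (T.filter fun c => g + c ∈ T \ P) := by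
        intro c hc
        rw [mem_filter] at hc
        by_cases hcP : c ∈ P
        · exact mem_union_right _ (mem_filter.2 ⟨hc.1, mem_sdiff.2 ⟨hc.2, hcon c hcP⟩⟩)
        · exact mem_union_left _ (mem_sdiff.2 ⟨hc.1, hcP⟩)
      have h3 : (T.filter fun c => g + c ∈ T \ P).card ≤ (T \ P).card := by
        refine card_le_card_of_injOn (fun c => g + c) ?_ ?_
        · intro c hc
          exact (mem_filter.1 hc).2
        · intro x _ y _ h
          exact add_left_cancel h
      have h4 := (card_le_card h1).trans (card_union_le _ _)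
      simp only [N] at hg
      omega
    have h1 : (t0 + c) + (t0 + (g + c)) = g := by
      have : (t0 + c) + (t0 + (g + c)) = (t0 + t0) + (c + c) + g := by abel
      rw [this, h2, h2]
      simp
    have h3 := N_add h2 T (t0 + c) (t0 + (g + c))
    rw [h1] at h3
    rw [hP, mem_filter] at hc hgc
    omega
  refine ⟨{ carrier := {g | m < 2 * N T g}
            zero_mem' := ?_
            add_mem' := ?_
            neg_mem' := ?_ }, t0, ht0, fun g => Iff.rfl, fun g hg => key g hg, ?_⟩
  · intro a b ha hb
    have h3 := N_add h2 T a b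
    have h4 := key a ha
    have h5 := key b hb
    simp only [Set.mem_ofPred_eq]
    omega
  · simp only [Set.mem_ofPred_eq, N_zero]
    omega
  · intro a ha
    have : -a = a := by
      rw [neg_eq_iff_add_eq_zero]
      exact h2 a
    rw [this]
    exact ha
  · refine lt_of_le_of_lt (Nat.mul_le_mul_left 8 (card_le_card ?_)) hPT
    intro c hc
    rw [mem_filter] at hc
    rw [mem_sdiff]
    refine ⟨hc.1, fun hcP => hc.2 ?_⟩
    rw [hP, mem_filter] at hcP
    change m < 2 * N T (t0 + c)
    omega

end Pool.Agent.N345.SDP
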