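import Pool.Agent.N345.SDP.Vec

set_option autoImplicit false
set_option linter.unusedSectionVars false

/-!
# The parameters of symmetric designs in which most triples of blocks have the symmetric
difference property
-/

namespace Pool.Agent.N345.SDP

open Finset Pool.Agent.N345.Sym
open scoped Classical

variable {v : ℕ}

/-- the data provided by the coset theorem -/
structure Ctx (v k lam : ℕ) (B : Fin v → Finset (Fin v)) (H : AddSubgroup (Fin v → ZMod 2))
    (t0 : Fin v → ZMod 2) : Prop where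
  des : Des v k lam B
  hlam : 1 ≤ lam
  iff : ∀ g, g ∈ H ↔ 2 * v < 2 * N (T B) g
  large : ∀ g ∈ H, 3 * (2 * v) < 4 * N (T B) g
  bad : 8 * (univ.filter fun i => t0 + ind (B i) ∉ H).card < v

/-- the elements of `H` -/
noncomputable def Hs (H : AddSubgroup (Fin v → ZMod 2)) : Finset (Fin v → ZMod 2) :=
  univ.filter fun g => g ∈ H

theorem mem_Hs {H : AddSubgroup (Fin v → ZMod 2)} {g : Fin v → ZMod 2} : g ∈ Hs H ↔ g ∈ H := by
  simp [Hs]

theorem card_Hs (H : AddSubgroup (Fin v → ZMod 2)) : (Hs H).card = Nat.card H := by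
  rw [Nat.card_eq_fintype_card, ← Fintype.card_coe]
  refine Fintype.card_congr (Equiv.subtypeEquivRight fun g => mem_Hs)

/-- orthogonality -/
theorem orth (H : AddSubgroup (Fin v → ZMod 2))
    (hsep : ∀ x y : Fin v, x ≠ y → ∃ g ∈ H, g x ≠ g y) (w : Fin v → ZMod 2) :
    ∑ g ∈ Hs H, S (w + g) ^ 2 = (Hs H).card * v := by
  have e1 : ∀ g : Fin v → ZMod 2, S (w + g) ^ 2 =
      ∑ x, ∑ y, (sg (w x) * sg (w y)) * sg (g x + g y) := by
    intro g
    rw [sq, S, sum_mul_sum]
    refine sum_congr rfl fun x _ => sum_congr rfl fun y _ => ?_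
    rw [Pi.add_apply, Pi.add_apply, sg_add, sg_add, sg_add]
    ring
  rw [sum_congr rfl (fun g _ => e1 g), sum_comm]
  have e2 : ∀ x y : Fin v, x ≠ y → ∑ g ∈ Hs H, sg (g x + g y) = 0 := by
    intro x y hxy
    obtain ⟨g0, hg0, hne⟩ := hsep x y hxy
    have e3 : ∑ g ∈ Hs H, sg (g x + g y) = ∑ g ∈ Hs H, sg ((g + g0) x + (g + g0) y) := by
      symm
      refine sum_nbij' (fun g => g + g0) (fun g => g + g0) ?_ ?_ ?_ ?_ ?_
      · intro g hg
        exact mem_Hs.2 (H.add_mem (mem_Hs.1 hg) hg0)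
      · intro g hg
        exact mem_Hs.2 (H.add_mem (mem_Hs.1 hg) hg0)
      · intro g _
        rw [add_assoc, two_add, add_zero]
      · intro g _
        rw [add_assoc, two_add, add_zero]
      · intro g _
        rfl
    have e4 : ∑ g ∈ Hs H, sg ((g + g0) x + (g + g0) y) = - ∑ g ∈ Hs H, sg (g x + g y) := by
      rw [← sum_neg_distrib]
      refine sum_congr rfl fun g _ => ?_
      have : (g + g0) x + (g + g0) y = (g x + g y) + (g0 x + g0 y) := by
        simp only [Pi.add_apply]; ring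
      rw [this, sg_add _ (g0 x + g0 y), add_one_cases _ _ hne]
      ring
    linarith
  have e5 : ∀ x : Fin v, ∑ g ∈ Hs H, ∑ y, (sg (w x) * sg (w y)) * sg (g x + g y) =
      (Hs H).card := by
    intro x
    rw [sum_comm, sum_eq_single x]
    · rw [← mul_sum, sg_mul_self, one_mul]
      have : ∀ g ∈ Hs H, sg (g x + g x) = 1 := by
        intro g _
        rw [sg_add, sg_mul_self]
      rw [sum_congr rfl this]
      simp
    · intro y _ hy
      rw [← mul_sum, e2 x y hy.symm, mul_zero]
    · intro hx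
      exact absurd (mem_univ x) hx
  rw [sum_congr rfl (fun x _ => e5 x)]
  simp
  ring

theorem arith {n d g b q : ℤ} (hd1 : 0 < d) (hn : 3 ≤ n) (hdev : 4 * d < 3 * n) (hgb : g + b = n)
    (hb : 8 * b < n) (hq : 3 * q < 8 * n) (hb0 : 0 ≤ b) (hq0 : 0 ≤ q)
    (hord : q * n = 2 * n ^ 2 + (q - 2) * d ^ 2)
    (hmain : (q - 2 * g) * (n ^ 2 - d * n - g * d ^ 2) ≤ b * (q * n - 2 * (g * d ^ 2))) : False := by
  have hd1' : 1 ≤ d := hd1
  have hdn : d < n := by linarith
  have h1 : q * (n - d ^ 2) = 2 * (n ^ 2 - d ^ 2) := by linarith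
  have h2 : 0 < n ^ 2 - d ^ 2 := by
    have : 0 < (n - d) * (n + d) := mul_pos (by linarith) (by linarith)
    linarith
  have h3 : 0 < n - d ^ 2 := by
    by_contra hcon
    push Not at hcon
    have := mul_nonneg hq0 (by linarith : 0 ≤ -(n - d ^ 2))
    linarith
  have h4 : (q - 2 * n) * (n - d ^ 2) = 2 * (n - 1) * d ^ 2 := by linarith
  have hd2 : d ≤ d ^ 2 := by nlinarith
  have hd3 : 0 < d ^ 2 := by positivity
  have h5 : 2 * d ^ 2 ≤ q - 2 * n := by
    have e1 : 2 * d ^ 2 * (n - d ^ 2) ≤ (q - 2 * n) * (n - d ^ 2) := by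
      rw [h4]
      have : d ^ 2 * (n - d ^ 2) ≤ d ^ 2 * (n - 1) :=
        mul_le_mul_of_nonneg_left (by linarith) hd3.le
      linarith
    exact le_of_mul_le_mul_right e1 h3
  have hg : g = n - b := by linarith
  subst hg
  have h6 : (q - 2 * n) * (n ^ 2 - d * n - (n - b) * d ^ 2) ≤ b * (n * ((q - 2 * n) + 2 * d)) := by
    have e1 : (q - 2 * (n - b)) * (n ^ 2 - d * n - (n - b) * d ^ 2) =
      (q - 2 * n) * (n ^ 2 - d * n - (n - b) * d ^ 2) +
        2 * b * (n ^ 2 - d * n - (n - b) * d ^ 2) := by ring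
    rw [e1] at hmain
    linarith
  have h7 : (q - 2 * n) * (n * (n - d - d ^ 2)) ≤
      (q - 2 * n) * (n ^ 2 - d * n - (n - b) * d ^ 2) := by
    refine mul_le_mul_of_nonneg_left ?_ (by linarith)
    have := mul_nonneg hb0 hd3.le
    linarith
  have hc0 : 0 < q - 2 * n := by linarith
  have h8 : (q - 2 * n) * n * (n - d - d ^ 2) ≤ (q - 2 * n) * n * (2 * b) := by
    have : b * (n * ((q - 2 * n) + 2 * d)) ≤ b * (n * ((q - 2 * n) + (q - 2 * n))) := by
      refine mul_le_mul_of_nonneg_left ?_ hb0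
      refine mul_le_mul_of_nonneg_left ?_ (by linarith)
      linarith
    linarith
  have h9 : n - d - d ^ 2 ≤ 2 * b := le_of_mul_le_mul_left h8 (by positivity)
  linarith

namespace Ctx

variable {k lam : ℕ} {B : Fin v → Finset (Fin v)} {H : AddSubgroup (Fin v → ZMod 2)}
  {t0 : Fin v → ZMod 2} (c : Ctx v k lam B H t0)
include c

theorem v3 : 3 ≤ v := by
  have := c.des.two_le
  have := c.des.lt
  omega

theorem one_mem : (1 : Fin v → ZMod 2) ∈ H := by
  rw [c.iff]
  have h1 : N (T B) 1 = (T B).card := by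
    rw [N]
    congr 1
    ext t
    simp only [mem_filter, and_iff_left_iff_imp]
    intro ht
    rw [add_comm, mem_T_add_one]
    exact ht
  rw [h1, card_T c.des c.hlam]
  have := c.v3
  omega

theorem card_bounds : 7 * v < 4 * (Hs H).card ∧ 3 * (Hs H).card < 8 * v := by
  have hT := card_T c.des c.hlam
  constructor
  · have h1 : ((T B).filter fun t => t0 + t ∈ H).card ≤ (Hs H).card := by
      refine card_le_card_of_injOn (fun t => t0 + t) ?_ ?_
      · intro t ht
        exact mem_Hs.2 (mem_filter.1 ht).2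
      · intro x _ y _ hxy
        exact add_left_cancel hxy
    have h2 : ((T B).filter fun t => t0 + t ∉ H).card =
        2 * (univ.filter fun i => t0 + ind (B i) ∉ H).card := by
      rw [card_filter, sum_T c.des c.hlam, card_filter]
      intro t
      have : t0 + (t + 1) ∉ H ↔ t0 + t ∉ H := by
        rw [← add_assoc, not_iff_not]
        exact H.add_mem_cancel_right c.one_mem
      simp only [this]
    have h3 := card_filter_add_card_filter_not (s := T B) (fun t => t0 + t ∈ H)
    have h4 := c.bad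
    omega
  · have h1 : (Hs H).card * (6 * v) < 4 * (T B).card ^ 2 := by
      rw [← sum_N, ← smul_eq_mul, ← sum_const, mul_sum]
      refine lt_of_lt_of_le ?_ (sum_le_sum_of_subset (filter_subset (fun g => g ∈ H) univ))
      refine sum_lt_sum_of_nonempty ⟨1, mem_Hs.2 c.one_mem⟩ ?_
      intro g hg
      have := c.large g (mem_filter.1 hg).2
      omega
    rw [hT] at h1
    have h2 := c.v3
    nlinarith

/-- the elements of `H` other than `0`, `1` -/
theorem val {g : Fin v → ZMod 2} (hg : g ∈ H) (h0 : g ≠ 0) (h1 : g ≠ 1) :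
    S g ^ 2 = ((v : ℤ) - 4 * ((k : ℤ) - lam)) ^ 2 := by
  have h2 := c.large g hg
  have h3 : 0 < N (T B) g := by omega
  obtain ⟨t, ht⟩ := card_pos.1 h3
  rw [mem_filter] at ht
  obtain ⟨i, hi⟩ := mem_T.1 ht.1
  obtain ⟨j, hj⟩ := mem_T.1 ht.2
  have e0 : g = t + (g + t) := by
    have : t + (g + t) = (t + t) + g := by abel
    rw [this, two_add, zero_add]
  have key : g = ind (B i) + ind (B j) ∨ g = ind (B i) + ind (B j) + 1 := by
    rcases hi with hi | hi <;> rcases hj with hj | hj
    · left; rw [e0, hj, hi]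
    · right; rw [e0, hj, hi]; abel
    · right; rw [e0, hj, hi]; abel
    · left
      rw [e0, hj, hi]
      have : ind (B i) + 1 + (ind (B j) + 1) = ind (B i) + ind (B j) + (1 + 1) := by abel
      rw [this, one_add_one', add_zero]
  have hij : i ≠ j := by
    rintro rfl
    rw [two_add, zero_add] at key
    rcases key with key | key
    · exact h0 key
    · exact h1 key
  rcases key with key | key
  · rw [key, S_blocks c.des c.hlam hij]
  · rw [key, S_add_one, S_blocks c.des c.hlam hij]; ring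

/-- `v / 2` is close to `k` if the deviation is not zero -/
theorem k_bounds (hd : (v : ℤ) - 4 * ((k : ℤ) - lam) ≠ 0) : 3 * v < 8 * k ∧ 3 * v < 8 * (v - k) := by
  obtain ⟨g, hg, hg0, hg1, hgS⟩ : ∃ g ∈ H, g ≠ 0 ∧ g ≠ 1 ∧
      S g = (v : ℤ) - 4 * ((k : ℤ) - lam) := by
    have h1 : ∃ g ∈ H, g ≠ 0 ∧ g ≠ 1 := by
      by_contra hcon
      push Not at hcon
      have h2 : Hs H ⊆ {0, 1} := by
        intro g hg
        rw [mem_insert, mem_singleton]
        by_cases h0 : g = 0
        · exact Or.inl h0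
        · exact Or.inr (hcon g (mem_Hs.1 hg) h0)
      have h3 := card_le_card h2
      have h4 := card_le_two (a := (0 : Fin v → ZMod 2)) (b := 1)
      have h5 := c.card_bounds.1
      have h6 := c.v3
      omega
    obtain ⟨g, hg, h0, h2⟩ := h1
    have h3 := c.val hg h0 h2
    rcases sq_eq_sq_iff_eq_or_eq_neg.1 h3 with h4 | h4
    · exact ⟨g, hg, h0, h2, h4⟩
    · refine ⟨g + 1, H.add_mem hg c.one_mem, ?_, ?_, ?_⟩
      · intro e
        apply h2
        have : g = (g + 1) + 1 := by rw [add_assoc, one_add_one', add_zero]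
        rw [this, e, zero_add]
      · intro e
        exact h0 (by simpa using e)
      · rw [S_add_one, h4]; ring
  set I := univ.filter fun i => g + ind (B i) ∈ T B with hI
  have hcard : N (T B) g = 2 * I.card := by
    rw [N, card_filter, sum_T c.des c.hlam, hI, card_filter]
    intro t
    rw [← add_assoc]
    simp only [mem_T_add_one]
  have hlarge := c.large g hg
  have hex : ∀ i ∈ I, ∃ j, g + ind (B i) = ind (B j) := by
    intro i hi
    rw [hI, mem_filter, mem_T] at hi
    obtain ⟨-, j, hj | hj⟩ := hi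
    · exact ⟨j, hj⟩
    · exfalso
      have e0 : g = ind (B i) + ind (B j) + 1 := by
        have : g = (g + ind (B i)) + ind (B i) := by rw [add_assoc, two_add, add_zero]
        rw [this, hj]
        abel
      by_cases hij : i = j
      · subst hij
        rw [two_add, zero_add] at e0
        exact hg1 e0
      · rw [e0, S_add_one, S_blocks c.des c.hlam hij] at hgS
        apply hd
        linarith
  choose! J hJ using hex
  obtain ⟨x, hx⟩ : ∃ x, g x ≠ 0 := by
    by_contra hcon
    push Not at hcon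
    exact hg0 (funext hcon)
  rw [ne_zero_iff] at hx
  have hJinj : Set.InjOn J (I : Set (Fin v)) := by
    intro i hi j hj hij
    have e1 := hJ i hi
    have e2 := hJ j hj
    rw [hij, ← e2] at e1
    exact c.des.inj c.hlam (ind_inj (add_left_cancel e1))
  have hJx : ∀ i ∈ I, (x ∈ B (J i) ↔ x ∉ B i) := by
    intro i hi
    have e1 := congrFun (hJ i hi) x
    simp only [Pi.add_apply, hx, ind] at e1
    by_cases h1 : x ∈ B i <;> by_cases h2 : x ∈ B (J i) <;> simp [h1, h2] at e1 ⊢
  have hrep := c.des.rep c.hlam x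
  have hrep' : (univ.filter fun i => x ∉ B i).card = v - k := by
    have := card_filter_add_card_filter_not (s := (univ : Finset (Fin v))) (fun i => x ∈ B i)
    rw [card_univ, Fintype.card_fin, hrep] at this
    omega
  have c1 : (I.filter fun i => x ∈ B i).card ≤ k := by
    rw [← hrep]
    exact card_le_card (filter_subset_filter _ (subset_univ _))
  have c2 : (I.filter fun i => x ∉ B i).card ≤ v - k := by
    rw [← hrep']
    exact card_le_card (filter_subset_filter _ (subset_univ _))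
  have c3 : (I.filter fun i => x ∈ B i).card ≤ v - k := by
    rw [← hrep']
    refine card_le_card_of_injOn J ?_ ?_
    · intro i hi
      have hi' := mem_filter.1 (mem_coe.1 hi)
      simp only [coe_filter, mem_univ, true_and]
      intro h5
      exact (hJx i hi'.1).1 h5 hi'.2
    · exact hJinj.mono (fun i hi => (mem_filter.1 (mem_coe.1 hi)).1)
  have c4 : (I.filter fun i => x ∉ B i).card ≤ k := by
    rw [← hrep]
    refine card_le_card_of_injOn J ?_ ?_
    · intro i hi
      have hi' := mem_filter.1 (mem_coe.1 hi)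
      simp only [coe_filter, mem_univ, true_and]
      exact (hJx i hi'.1).2 hi'.2
    · exact hJinj.mono (fun i hi => (mem_filter.1 (mem_coe.1 hi)).1)
  have c5 := card_filter_add_card_filter_not (s := I) (fun i => x ∈ B i)
  omega

/-- the deviation is at least `-1` and not too large -/
theorem dev : -1 ≤ (v : ℤ) - 4 * ((k : ℤ) - lam) ∧ 4 * ((v : ℤ) - 4 * ((k : ℤ) - lam)) < 3 * v := by
  have h1 := square c.des c.hlam
  have h3 := c.v3
  set d := (v : ℤ) - 4 * ((k : ℤ) - lam) with hd
  have hv : (3 : ℤ) ≤ v := by exact_mod_cast h3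
  constructor
  · by_contra hcon
    push Not at hcon
    nlinarith [sq_nonneg ((v : ℤ) - 2 * k)]
  · by_cases hd0 : d = 0
    · rw [hd0]; omega
    · obtain ⟨h4, h5⟩ := c.k_bounds (by rw [← hd]; exact hd0)
      have hkv := c.des.lt
      have h6 : (3 : ℤ) * v < 8 * k := by exact_mod_cast h4
      have h7 : (3 : ℤ) * v < 8 * (v - k) := by
        have : ((3 * v : ℕ) : ℤ) < ((8 * (v - k) : ℕ) : ℤ) := by exact_mod_cast h5
        push_cast [Nat.cast_sub hkv.le] at this
        exact this
      have h8 : 16 * ((v : ℤ) - 2 * k) ^ 2 < v ^ 2 := by nlinarith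
      by_contra hcon
      push Not at hcon
      nlinarith

/-- different points are separated by `H` -/
theorem sep : ∀ x y : Fin v, x ≠ y → ∃ g ∈ H, g x ≠ g y := by
  intro x y hxy
  by_contra hcon
  push Not at hcon
  have h1 := dual c.des c.hlam hxy
  obtain ⟨h2, h3⟩ := c.dev
  set d := (v : ℤ) - 4 * ((k : ℤ) - lam) with hd
  set s := sg (t0 x) * sg (t0 y) with hs
  have hs1 : s = 1 ∨ s = -1 := by
    rcases sg_cases (t0 x) with h4 | h4 <;> rcases sg_cases (t0 y) with h5 | h5 <;>
      rw [hs, h4, h5] <;> norm_num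
  have e1 : ∀ i, (if t0 + ind (B i) ∉ H then (-1 : ℤ) else 1) ≤
      s * (sg (ind (B i) x) * sg (ind (B i) y)) := by
    intro i
    by_cases hi : t0 + ind (B i) ∈ H
    · rw [if_neg (not_not.2 hi)]
      have h4 := hcon _ hi
      have h5 : sg (t0 x) * sg (ind (B i) x) = sg (t0 y) * sg (ind (B i) y) := by
        rw [← sg_add, ← sg_add]
        exact congrArg sg h4
      have h6 : s * (sg (ind (B i) x) * sg (ind (B i) y)) =
          (sg (t0 x) * sg (ind (B i) x)) * (sg (t0 y) * sg (ind (B i) y)) := by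
        rw [hs]; ring
      rw [h6, h5, ← sg_add, sg_mul_self]
    · rw [if_pos hi]
      rcases hs1 with h4 | h4 <;> rcases sg_cases (ind (B i) x) with h5 | h5 <;>
        rcases sg_cases (ind (B i) y) with h6 | h6 <;> rw [h4, h5, h6] <;> norm_num
  have e2 := sum_le_sum (fun i (_ : i ∈ (univ : Finset (Fin v))) => e1 i)
  rw [← mul_sum, h1] at e2
  have e3 : ∑ i : Fin v, (if t0 + ind (B i) ∉ H then (-1 : ℤ) else 1) =
      (v : ℤ) - 2 * (univ.filter fun i => t0 + ind (B i) ∉ H).card := by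
    have : ∀ i : Fin v, (if t0 + ind (B i) ∉ H then (-1 : ℤ) else 1) =
        1 - 2 * (if t0 + ind (B i) ∉ H then 1 else 0) := by
      intro i
      split_ifs <;> norm_num
    rw [sum_congr rfl (fun i _ => this i), sum_sub_distrib, ← mul_sum, card_filter]
    push_cast
    simp
  rw [e3] at e2
  have h4 := c.bad
  have h5 : (8 : ℤ) * ((univ.filter fun i => t0 + ind (B i) ∉ H).card : ℤ) < v := by
    exact_mod_cast h4
  have h6 := c.v3
  have h7 : (3 : ℤ) ≤ v := by exact_mod_cast h6
  rcases hs1 with h8 | h8 <;> rw [h8] at e2 <;> linarith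

/-- the equation for the order of `H` -/
theorem order_eq : ((Hs H).card : ℤ) * v =
    2 * (v : ℤ) ^ 2 + (((Hs H).card : ℤ) - 2) * ((v : ℤ) - 4 * ((k : ℤ) - lam)) ^ 2 := by
  have h1 := orth H c.sep 0
  rw [← h1]
  have h3 := c.v3
  have hne : (0 : Fin v → ZMod 2) ≠ 1 := by
    intro e
    have := congrFun e ⟨0, by omega⟩
    simp at this
  have m0 : (0 : Fin v → ZMod 2) ∈ Hs H := mem_Hs.2 H.zero_mem
  have m1 : (1 : Fin v → ZMod 2) ∈ (Hs H).erase 0 := by
    rw [mem_erase]
    exact ⟨hne.symm, mem_Hs.2 c.one_mem⟩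
  rw [← add_sum_erase _ _ m0, ← add_sum_erase _ _ m1]
  have e1 : ∑ x ∈ ((Hs H).erase 0).erase 1, S (0 + x) ^ 2 =
      (((Hs H).card : ℤ) - 2) * ((v : ℤ) - 4 * ((k : ℤ) - lam)) ^ 2 := by
    rw [sum_congr rfl (g := fun _ => ((v : ℤ) - 4 * ((k : ℤ) - lam)) ^ 2), sum_const,
      card_erase_of_mem m1, card_erase_of_mem m0, nsmul_eq_mul]
    · have : 2 ≤ (Hs H).card := by
        have h5 := c.card_bounds.1
        omega
      congr 1
      have h6 : (Hs H).card - 1 - 1 = (Hs H).card - 2 := by omega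
      rw [h6, Nat.cast_sub this]
      rfl
    · intro g hg
      rw [mem_erase, mem_erase] at hg
      rw [zero_add]
      exact c.val (mem_Hs.1 hg.2.2) hg.2.1 hg.1
  rw [e1, zero_add, zero_add, S_zero, S_one]
  ring

/-- the deviation is not positive -/
theorem not_pos : ¬ 0 < (v : ℤ) - 4 * ((k : ℤ) - lam) := by
  intro hpos
  have hsq := sum_sq c.des c.hlam
  have hdev := c.dev.2
  have hord := c.order_eq
  have hval := fun g hg h0 h1 => c.val (g := g) hg h0 h1
  set d := (v : ℤ) - 4 * ((k : ℤ) - lam) with hd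
  set Bad := univ.filter fun i => t0 + ind (B i) ∉ H with hBad
  set Good := univ.filter fun i => t0 + ind (B i) ∈ H with hGood
  set U := univ.filter fun u : Fin v → ZMod 2 => t0 + u ∈ H with hU
  set W := U.filter fun u => u ∉ T B with hW
  have hβ := c.bad
  rw [← hBad] at hβ
  have hgb : Good.card + Bad.card = v := by
    have := card_filter_add_card_filter_not (s := (univ : Finset (Fin v)))
      (fun i => t0 + ind (B i) ∈ H)
    rw [card_univ, Fintype.card_fin] at this
    exact this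
  have hadd : ∀ t : Fin v → ZMod 2, t0 + (t + 1) ∈ H ↔ t0 + t ∈ H := by
    intro t
    rw [← add_assoc]
    exact H.add_mem_cancel_right c.one_mem
  -- the sum over the coset
  have hUsum : ∀ f : (Fin v → ZMod 2) → ℤ, ∑ u ∈ U, f u = ∑ g ∈ Hs H, f (t0 + g) := by
    intro f
    refine sum_nbij' (fun u => t0 + u) (fun g => t0 + g) ?_ ?_ ?_ ?_ ?_
    · intro u hu
      exact mem_Hs.2 (mem_filter.1 hu).2
    · intro g hg
      rw [hU, mem_filter]
      refine ⟨mem_univ _, ?_⟩
      rw [← add_assoc, two_add, zero_add]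
      exact mem_Hs.1 hg
    · intro u _
      rw [← add_assoc, two_add, zero_add]
    · intro g _
      rw [← add_assoc, two_add, zero_add]
    · intro u _
      rw [← add_assoc, two_add, zero_add]
  have hUT : ∀ f : (Fin v → ZMod 2) → ℤ, (∀ t, f (t + 1) = f t) →
      ∑ u ∈ U, f u = ∑ u ∈ W, f u + 2 * ∑ i ∈ Good, f (ind (B i)) := by
    intro f hf
    rw [← sum_filter_add_sum_filter_not U (fun u => u ∉ T B)]
    congr 1
    have e1 : U.filter (fun u => ¬ u ∉ T B) = (T B).filter fun u => t0 + u ∈ H := by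
      ext u
      simp only [hU, mem_filter, mem_univ, true_and, not_not]
      exact and_comm
    rw [e1, sum_filter, sum_T' c.des c.hlam, hGood, sum_filter]
    intro t
    simp only [hadd, hf]
  -- the size of `W`
  have hWcard : (W.card : ℤ) = (Hs H).card - 2 * Good.card := by
    have e1 := hUsum (fun _ => 1)
    have e2 := hUT (fun _ => 1) (fun _ => rfl)
    simp only [sum_const, nsmul_eq_mul, mul_one] at e1 e2
    linarith
  have hinv : ∀ (i : Fin v) (t : Fin v → ZMod 2), S (t + 1 + ind (B i)) ^ 2 =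
      S (t + ind (B i)) ^ 2 := by
    intro i t
    have : t + 1 + ind (B i) = t + ind (B i) + 1 := by abel
    rw [this, S_add_one, neg_sq]
  -- the sum for a bad block
  have hbadsum : ∀ i ∈ Bad, ∑ u ∈ W, S (u + ind (B i)) ^ 2 =
      (Hs H).card * v - 2 * (Good.card * d ^ 2) := by
    intro i hi
    rw [hBad, mem_filter] at hi
    have e1 := hUsum (fun u => S (u + ind (B i)) ^ 2)
    have e2 := hUT (fun u => S (u + ind (B i)) ^ 2) (hinv i)
    have e3 := orth H c.sep (t0 + ind (B i))
    have e4 : ∀ g : Fin v → ZMod 2, t0 + ind (B i) + g = t0 + g + ind (B i) := by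
      intro g; abel
    simp only [e4] at e3
    rw [e3] at e1
    have e5 : ∑ j ∈ Good, S (ind (B j) + ind (B i)) ^ 2 = Good.card * d ^ 2 := by
      rw [sum_congr rfl (g := fun _ => d ^ 2), sum_const, nsmul_eq_mul]
      intro j hj
      rw [hGood, mem_filter] at hj
      have hji : j ≠ i := by
        rintro rfl
        exact hi.2 hj.2
      rw [S_blocks c.des c.hlam hji]
    rw [e5] at e2
    linarith
  -- the sum for an element of `W`
  have hWsum : ∀ u ∈ W, (v : ℤ) ^ 2 - d * v - Good.card * d ^ 2 ≤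
      ∑ i ∈ Bad, S (u + ind (B i)) ^ 2 := by
    intro u hu
    rw [hW, mem_filter, hU, mem_filter] at hu
    have e1 := hsq u
    rw [← sum_filter_add_sum_filter_not univ (fun i => t0 + ind (B i) ∈ H)] at e1
    have e2 : ∑ i ∈ univ.filter (fun i => t0 + ind (B i) ∈ H), S (u + ind (B i)) ^ 2 =
        Good.card * d ^ 2 := by
      rw [sum_congr rfl (g := fun _ => d ^ 2), sum_const, nsmul_eq_mul]
      intro i hi
      rw [mem_filter] at hi
      have e3 : u + ind (B i) ∈ H := by
        have : u + ind (B i) = (t0 + u) + (t0 + ind (B i)) := by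
          have : (t0 + u) + (t0 + ind (B i)) = (t0 + t0) + (u + ind (B i)) := by abel
          rw [this, two_add, zero_add]
        rw [this]
        exact H.add_mem hu.1.2 hi.2
      refine hval _ e3 ?_ ?_
      · intro e4
        apply hu.2
        have : u = ind (B i) := by
          have : u = (u + ind (B i)) + ind (B i) := by rw [add_assoc, two_add, add_zero]
          rw [this, e4, zero_add]
        rw [this, mem_T]
        exact ⟨i, Or.inl rfl⟩
      · intro e4
        apply hu.2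
        have : u = ind (B i) + 1 := by
          have : u = (u + ind (B i)) + ind (B i) := by rw [add_assoc, two_add, add_zero]
          rw [this, e4, add_comm]
        rw [this, mem_T]
        exact ⟨i, Or.inr rfl⟩
    rw [e2] at e1
    have e3 : 0 ≤ d * S u ^ 2 := mul_nonneg hpos.le (sq_nonneg _)
    have e4 : ∑ i ∈ univ.filter (fun i => ¬ t0 + ind (B i) ∈ H), S (u + ind (B i)) ^ 2 =
        ∑ i ∈ Bad, S (u + ind (B i)) ^ 2 := rfl
    rw [e4] at e1
    linarith
  -- comparison
  have hmain : (W.card : ℤ) * ((v : ℤ) ^ 2 - d * v - Good.card * d ^ 2) ≤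
      Bad.card * ((Hs H).card * v - 2 * (Good.card * d ^ 2)) := by
    have e1 : ∑ u ∈ W, ((v : ℤ) ^ 2 - d * v - Good.card * d ^ 2) ≤
        ∑ u ∈ W, ∑ i ∈ Bad, S (u + ind (B i)) ^ 2 := sum_le_sum hWsum
    rw [sum_comm, sum_congr rfl hbadsum, sum_const, sum_const, nsmul_eq_mul, nsmul_eq_mul] at e1
    exact e1
  have hv3 := c.v3
  have hcb := c.card_bounds.2
  have hgb' : (Good.card : ℤ) + Bad.card = v := by exact_mod_cast hgb
  have hβ' : (8 : ℤ) * Bad.card < v := by exact_mod_cast hβ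
  have hcb' : (3 : ℤ) * (Hs H).card < 8 * v := by exact_mod_cast hcb
  have hv3' : (3 : ℤ) ≤ v := by exact_mod_cast hv3
  have hb0 : (0 : ℤ) ≤ Bad.card := Int.natCast_nonneg _
  have hh0 : (0 : ℤ) ≤ (Hs H).card := Int.natCast_nonneg _
  rw [hWcard] at hmain
  exact arith hpos hv3' hdev hgb' hβ' hcb' hb0 hh0 hord hmain

omit c in
/-- the order of `H` is a power of two -/
theorem pow (H : AddSubgroup (Fin v → ZMod 2)) : ∃ a, (Hs H).card = 2 ^ a := by
  have h1 : Nat.card H ∣ Nat.card (Fin v → ZMod 2) := AddSubgroup.card_addSubgroup_dvd_card H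
  have h2 : Nat.card (Fin v → ZMod 2) = 2 ^ v := by
    simp
  rw [h2] at h1
  obtain ⟨a, -, ha⟩ := (Nat.dvd_prime_pow Nat.prime_two).1 h1
  exact ⟨a, by rw [card_Hs, ha]⟩

/-- the number of points -/
theorem points : (∃ a : ℕ, v = 2 ^ a ∧ v + 4 * lam = 4 * k ∧ ((v : ℤ) - 2 * k) ^ 2 = v) ∨
    ∃ a : ℕ, v + 1 = 2 ^ a ∧ v + 4 * lam + 1 = 4 * k ∧ ((v : ℤ) - 2 * k) ^ 2 = 1 := by
  have h1 := c.not_pos
  have h2 := c.dev.1
  have h3 := c.order_eq
  have h4 := square c.des c.hlam
  obtain ⟨a, ha⟩ := pow H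
  have hv3 := c.v3
  have hv3' : (3 : ℤ) ≤ v := by exact_mod_cast hv3
  have h5 : (v : ℤ) - 4 * ((k : ℤ) - lam) = 0 ∨ (v : ℤ) - 4 * ((k : ℤ) - lam) = -1 := by omega
  rcases h5 with h5 | h5
  · left
    rw [h5] at h3 h4
    have h6 : ((Hs H).card : ℤ) = 2 * v := by
      have : ((Hs H).card : ℤ) * v = (2 * v) * v := by linarith
      exact mul_right_cancel₀ (by positivity) this
    have h7 : (Hs H).card = 2 * v := by exact_mod_cast h6
    rw [ha] at h7
    obtain ⟨b, rfl⟩ : ∃ b, a = b + 1 := by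
      rcases a with _ | b
      · simp at h7; omega
      · exact ⟨b, rfl⟩
    refine ⟨b, ?_, ?_, by linarith⟩
    · rw [pow_succ] at h7; omega
    · omega
  · right
    rw [h5] at h3 h4
    have h6 : ((Hs H).card : ℤ) = 2 * (v + 1) := by
      have : ((Hs H).card : ℤ) * (v - 1) = (2 * (v + 1)) * (v - 1) := by linarith
      exact mul_right_cancel₀ (by linarith) this
    have h7 : (Hs H).card = 2 * (v + 1) := by exact_mod_cast h6
    rw [ha] at h7
    obtain ⟨b, rfl⟩ : ∃ b, a = b + 1 := by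
      rcases a with _ | b
      · simp at h7; omega
      · exact ⟨b, rfl⟩
    refine ⟨b, ?_, ?_, by linarith⟩
    · rw [pow_succ] at h7; omega
    · omega

/-- the parameters -/
theorem params : ∃ m : ℕ,
    (v = 4 ^ (m + 1) ∧ k = 2 * 4 ^ m + 2 ^ m ∧ lam = 4 ^ m + 2 ^ m) ∨
    (v = 4 ^ (m + 1) ∧ k + 2 ^ m = 2 * 4 ^ m ∧ lam + 2 ^ m = 4 ^ m) ∨
    (v + 1 = 4 * 2 ^ m ∧ k + 1 = 2 * 2 ^ m ∧ lam + 1 = 2 ^ m) ∨
    (v + 1 = 4 * 2 ^ m ∧ k = 2 * 2 ^ m ∧ lam = 2 ^ m) := by
  have hv3 := c.v3
  rcases c.points with ⟨a, ha, h1, h2⟩ | ⟨a, ha, h1, h2⟩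
  · -- `v` is a square
    obtain ⟨s, hs⟩ : ∃ s : ℕ, s = ((v : ℤ) - 2 * k).natAbs := ⟨_, rfl⟩
    have h3 : s ^ 2 = v := by
      have : ((s ^ 2 : ℕ) : ℤ) = v := by
        rw [hs]
        push_cast
        rw [sq_abs]
        exact h2
      exact_mod_cast this
    have h4 : s ∣ 2 ^ a := by
      rw [← ha, ← h3, sq]
      exact dvd_mul_right s s
    obtain ⟨b, -, hb⟩ := (Nat.dvd_prime_pow Nat.prime_two).1 h4
    obtain ⟨m, rfl⟩ : ∃ m, b = m + 1 := by
      rcases b with _ | m
      · rw [hb] at h3; simp at h3; omega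
      · exact ⟨m, rfl⟩
    have h5 : v = 4 ^ (m + 1) := by
      rw [← h3, hb, ← pow_mul, mul_comm, pow_mul]
      norm_num
    have h6 : (v : ℤ) - 2 * k = s ∨ (v : ℤ) - 2 * k = - s := by
      have := Int.natAbs_eq ((v : ℤ) - 2 * k)
      rw [← hs] at this
      exact this
    have h7 : (v : ℤ) = 4 * 4 ^ m := by
      rw [h5]; push_cast; ring
    have h8 : (s : ℤ) = 2 * 2 ^ m := by
      rw [hb]; push_cast; ring
    have h9 : (v : ℤ) + 4 * lam = 4 * k := by exact_mod_cast h1
    refine ⟨m, ?_⟩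
    rcases h6 with h6 | h6
    · right; left
      refine ⟨h5, ?_, ?_⟩
      · have : ((k + 2 ^ m : ℕ) : ℤ) = ((2 * 4 ^ m : ℕ) : ℤ) := by push_cast; linarith
        exact_mod_cast this
      · have : ((lam + 2 ^ m : ℕ) : ℤ) = ((4 ^ m : ℕ) : ℤ) := by push_cast; linarith
        exact_mod_cast this
    · left
      refine ⟨h5, ?_, ?_⟩
      · have : ((k : ℕ) : ℤ) = ((2 * 4 ^ m + 2 ^ m : ℕ) : ℤ) := by push_cast; linarith
        exact_mod_cast this
      · have : ((lam : ℕ) : ℤ) = ((4 ^ m + 2 ^ m : ℕ) : ℤ) := by push_cast; linarith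
        exact_mod_cast this
  · have h3 : (v : ℤ) - 2 * k = 1 ∨ (v : ℤ) - 2 * k = -1 := by
      have : ((v : ℤ) - 2 * k) ^ 2 = 1 ^ 2 := by rw [h2]; norm_num
      exact sq_eq_sq_iff_eq_or_eq_neg.1 this
    obtain ⟨m, rfl⟩ : ∃ m, a = m + 2 := by
      rcases a with _ | _ | m
      · simp at ha; omega
      · simp at ha; omega
      · exact ⟨m, rfl⟩
    have h4 : v + 1 = 4 * 2 ^ m := by rw [ha]; ring
    refine ⟨m, ?_⟩
    rcases h3 with h3 | h3
    · right; right; left
      refine ⟨h4, ?_, ?_⟩ <;> omega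
    · right; right; right
      refine ⟨h4, ?_, ?_⟩ <;> omega

end Ctx

/-- the symmetric difference property of a triple of blocks -/
theorem main {k lam : ℕ} {B : Fin v → Finset (Fin v)} (h : Des v k lam B) (hlam : 1 ≤ lam)
    (hbad : 64 * (∑ i, ∑ j, ∑ l,
      (if ind (B i) + ind (B j) + ind (B l) ∉ T B then 1 else 0)) < v ^ 3) : ∃ m : ℕ,
    (v = 4 ^ (m + 1) ∧ k = 2 * 4 ^ m + 2 ^ m ∧ lam = 4 ^ m + 2 ^ m) ∨
    (v = 4 ^ (m + 1) ∧ k + 2 ^ m = 2 * 4 ^ m ∧ lam + 2 ^ m = 4 ^ m) ∨
    (v + 1 = 4 * 2 ^ m ∧ k + 1 = 2 * 2 ^ m ∧ lam + 1 = 2 ^ m) ∨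
    (v + 1 = 4 * 2 ^ m ∧ k = 2 * 2 ^ m ∧ lam = 2 ^ m) := by
  have h1 := card_T h hlam
  have h2 := badT_eq h hlam
  have h3 := h.v2 hlam
  obtain ⟨H, t0, -, h4, h5, h6⟩ := coset two_add (T B) (by omega) (by
    rw [h1, h2]
    have : (2 * v) ^ 3 = 8 * v ^ 3 := by ring
    rw [this]
    omega)
  rw [h1] at h4 h5 h6
  have hone : (1 : Fin v → ZMod 2) ∈ H := by
    rw [h4]
    have h1' : N (T B) 1 = (T B).card := by
      rw [N]
      congr 1
      ext t
      simp only [mem_filter, and_iff_left_iff_imp]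
      intro ht
      rw [add_comm, mem_T_add_one]
      exact ht
    rw [h1', h1]
    omega
  have c : Ctx v k lam B H t0 := by
    refine ⟨h, hlam, h4, h5, ?_⟩
    have h7 : ((T B).filter fun t => t0 + t ∉ H).card =
        2 * (univ.filter fun i => t0 + ind (B i) ∉ H).card := by
      rw [card_filter, sum_T h hlam, card_filter]
      intro t
      have : t0 + (t + 1) ∉ H ↔ t0 + t ∉ H := by
        rw [← add_assoc, not_iff_not]
        exact H.add_mem_cancel_right hone
      simp only [this]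
    omega
  exact c.params

end Pool.Agent.N345.SDP
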