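import Pool.Agent.N345.SDP.Coset
import Pool.Agent.N345.Sym.Basic

set_option autoImplicit false
set_option linter.unusedSectionVars false

/-!
# The vectors of the blocks of a symmetric design
-/

namespace Pool.Agent.N345.SDP

open Finset Pool.Agent.N345.Sym

/-- the sign of an element of `Z/2` -/
def sg (a : ZMod 2) : ℤ := if a = 0 then 1 else -1

theorem sg_add (a b : ZMod 2) : sg (a + b) = sg a * sg b := by
  revert a b; decide

theorem sg_mul_self (a : ZMod 2) : sg a * sg a = 1 := by
  revert a; decide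

theorem sg_cases (a : ZMod 2) : sg a = 1 ∨ sg a = -1 := by
  revert a; decide

theorem ne_zero_iff (a : ZMod 2) : a ≠ 0 ↔ a = 1 := by
  revert a; decide

theorem add_one_cases (a b : ZMod 2) (h : a ≠ b) : sg (a + b) = -1 := by
  revert a b; decide

variable {v : ℕ}

/-- the sum of the signs -/
def S (f : Fin v → ZMod 2) : ℤ := ∑ x, sg (f x)

/-- the indicator vector -/
def ind (s : Finset (Fin v)) : Fin v → ZMod 2 := fun x => if x ∈ s then 1 else 0

theorem two_add (f : Fin v → ZMod 2) : f + f = 0 := by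
  funext x
  simp only [Pi.add_apply, Pi.zero_apply]
  generalize f x = a
  revert a; decide

theorem S_zero : S (0 : Fin v → ZMod 2) = v := by
  simp [S, sg]

theorem S_add_one (f : Fin v → ZMod 2) : S (f + 1) = - S f := by
  simp only [S, Pi.add_apply, Pi.one_apply, sg_add]
  rw [← Finset.sum_neg_distrib]
  refine sum_congr rfl fun x _ => ?_
  have : sg 1 = -1 := by decide
  rw [this]; ring

theorem S_one : S (1 : Fin v → ZMod 2) = -v := by
  have := S_add_one (0 : Fin v → ZMod 2)
  rw [zero_add, S_zero] at this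
  exact this

theorem sg_ind (s : Finset (Fin v)) (x : Fin v) : sg (ind s x) = 1 - 2 * (if x ∈ s then 1 else 0) := by
  unfold ind
  split_ifs <;> decide

theorem ind_inj {s t : Finset (Fin v)} (h : ind s = ind t) : s = t := by
  ext x
  have := congrFun h x
  unfold ind at this
  by_cases h1 : x ∈ s <;> by_cases h2 : x ∈ t <;> simp_all

section
variable {k lam : ℕ} {B : Fin v → Finset (Fin v)} (h : Des v k lam B) (hlam : 1 ≤ lam)
include h hlam

theorem S_blocks {i j : Fin v} (hij : i ≠ j) :
    S (ind (B i) + ind (B j)) = (v : ℤ) - 4 * ((k : ℤ) - lam) := by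
  have h1 := h.inter hlam hij
  have e1 : (∑ x : Fin v, (if x ∈ B i then (1 : ℤ) else 0)) = k := by
    rw [← h.size i]; simp
  have e2 : (∑ x : Fin v, (if x ∈ B j then (1 : ℤ) else 0)) = k := by
    rw [← h.size j]; simp
  have e3 : (∑ x : Fin v, (if x ∈ B i then (1 : ℤ) else 0) * (if x ∈ B j then (1 : ℤ) else 0)) =
      lam := by
    rw [← h1, card_eq_sum_ones, Nat.cast_sum, ← sum_filter_add_sum_filter_not univ
      (fun x => x ∈ B i ∩ B j)]
    have a1 : (univ.filter fun x => x ∈ B i ∩ B j) = B i ∩ B j := by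
      ext x; simp
    rw [a1]
    have a2 : ∑ x ∈ univ.filter (fun x => ¬ x ∈ B i ∩ B j),
        (if x ∈ B i then (1 : ℤ) else 0) * (if x ∈ B j then (1 : ℤ) else 0) = 0 := by
      refine sum_eq_zero fun x hx => ?_
      rw [mem_filter, mem_inter] at hx
      by_cases h2 : x ∈ B i <;> by_cases h3 : x ∈ B j <;> simp_all
    rw [a2, add_zero]
    refine sum_congr rfl fun x hx => ?_
    rw [mem_inter] at hx
    simp [hx.1, hx.2]
  unfold S
  have e4 : ∀ x : Fin v, sg ((ind (B i) + ind (B j)) x) =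
      1 - 2 * (if x ∈ B i then (1 : ℤ) else 0) - 2 * (if x ∈ B j then (1 : ℤ) else 0) +
        4 * ((if x ∈ B i then (1 : ℤ) else 0) * (if x ∈ B j then (1 : ℤ) else 0)) := by
    intro x
    rw [Pi.add_apply, sg_add, sg_ind, sg_ind]
    ring
  rw [sum_congr rfl (fun x _ => e4 x), sum_add_distrib, sum_sub_distrib, sum_sub_distrib,
    ← mul_sum, ← mul_sum, ← mul_sum, e1, e2, e3]
  simp
  ring

theorem dual {x y : Fin v} (hxy : x ≠ y) :
    ∑ i, sg (ind (B i) x) * sg (ind (B i) y) = (v : ℤ) - 4 * ((k : ℤ) - lam) := by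
  have h1 := h.pair x y hxy
  have e1 : ∀ z : Fin v, (∑ i : Fin v, (if z ∈ B i then (1 : ℤ) else 0)) = k := by
    intro z
    rw [← h.rep hlam z]; simp
  have e3 : (∑ i : Fin v, (if x ∈ B i then (1 : ℤ) else 0) * (if y ∈ B i then (1 : ℤ) else 0)) =
      lam := by
    rw [← h1, card_filter, Nat.cast_sum]
    refine sum_congr rfl fun i _ => ?_
    by_cases h2 : x ∈ B i <;> by_cases h3 : y ∈ B i <;> simp [h2, h3]
  have e4 : ∀ i : Fin v, sg (ind (B i) x) * sg (ind (B i) y) =
      1 - 2 * (if x ∈ B i then (1 : ℤ) else 0) - 2 * (if y ∈ B i then (1 : ℤ) else 0) +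
        4 * ((if x ∈ B i then (1 : ℤ) else 0) * (if y ∈ B i then (1 : ℤ) else 0)) := by
    intro i
    rw [sg_ind, sg_ind]
    ring
  rw [sum_congr rfl (fun x _ => e4 x), sum_add_distrib, sum_sub_distrib, sum_sub_distrib,
    ← mul_sum, ← mul_sum, ← mul_sum, e1, e1, e3]
  simp
  ring

/-- the sum of the squares of the sums of signs -/
theorem sum_sq (u : Fin v → ZMod 2) : ∑ i, S (u + ind (B i)) ^ 2 =
    (v : ℤ) ^ 2 - ((v : ℤ) - 4 * ((k : ℤ) - lam)) * v +
      ((v : ℤ) - 4 * ((k : ℤ) - lam)) * S u ^ 2 := by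
  set d := (v : ℤ) - 4 * ((k : ℤ) - lam) with hd
  have e1 : ∀ i, S (u + ind (B i)) ^ 2 =
      ∑ x, ∑ y, (sg (u x) * sg (u y)) * (sg (ind (B i) x) * sg (ind (B i) y)) := by
    intro i
    rw [sq, S, sum_mul_sum]
    refine sum_congr rfl fun x _ => sum_congr rfl fun y _ => ?_
    rw [Pi.add_apply, Pi.add_apply, sg_add, sg_add]
    ring
  rw [sum_congr rfl (fun i _ => e1 i), sum_comm]
  have e2 : ∀ x : Fin v, ∑ i, ∑ y, (sg (u x) * sg (u y)) * (sg (ind (B i) x) * sg (ind (B i) y)) =
      (v - d) + d * (sg (u x) * S u) := by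
    intro x
    rw [sum_comm]
    have e3 : ∀ y : Fin v, ∑ i, (sg (u x) * sg (u y)) * (sg (ind (B i) x) * sg (ind (B i) y)) =
        d * (sg (u x) * sg (u y)) + (if x = y then (v : ℤ) - d else 0) := by
      intro y
      rw [← mul_sum]
      by_cases hxy : x = y
      · subst hxy
        rw [if_pos rfl, sg_mul_self]
        simp only [sg_mul_self]
        simp
      · rw [if_neg hxy, dual h hlam hxy, ← hd]
        ring
    rw [sum_congr rfl (fun y _ => e3 y), sum_add_distrib, sum_ite_eq, if_pos (mem_univ _),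
      ← mul_sum, ← mul_sum]
    unfold S
    ring
  rw [sum_congr rfl (fun x _ => e2 x), sum_add_distrib, ← mul_sum, ← sum_mul]
  unfold S
  simp
  ring

/-- `(v - 2k)² = (v - 1) d + v` -/
theorem square : ((v : ℤ) - 2 * k) ^ 2 = (v - 1) * ((v : ℤ) - 4 * ((k : ℤ) - lam)) + v := by
  have h1 := h.count hlam
  have h2 := h.v2 hlam
  have h3 : ((k : ℤ)) * k = lam * (v - 1) + k := by
    have : ((k * k : ℕ) : ℤ) = ((lam * (v - 1) + k : ℕ) : ℤ) := by rw [h1]
    push_cast [Nat.cast_sub (by omega : 1 ≤ v)] at this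
    exact this
  linarith

end

/-- the vectors of the blocks and of their complements -/
def T (B : Fin v → Finset (Fin v)) : Finset (Fin v → ZMod 2) :=
  (univ.image fun i => ind (B i)) ∪ (univ.image fun i => ind (B i) + 1)

theorem mem_T {B : Fin v → Finset (Fin v)} {t : Fin v → ZMod 2} :
    t ∈ T B ↔ ∃ i, t = ind (B i) ∨ t = ind (B i) + 1 := by
  unfold T
  simp only [mem_union, mem_image, mem_univ, true_and]
  constructor
  · rintro (⟨i, hi⟩ | ⟨i, hi⟩)
    · exact ⟨i, Or.inl hi.symm⟩
    · exact ⟨i, Or.inr hi.symm⟩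
  · rintro ⟨i, hi | hi⟩
    · exact Or.inl ⟨i, hi.symm⟩
    · exact Or.inr ⟨i, hi.symm⟩

theorem one_add_one' : (1 : Fin v → ZMod 2) + 1 = 0 := two_add 1

theorem mem_T_add_one {B : Fin v → Finset (Fin v)} {t : Fin v → ZMod 2} :
    t + 1 ∈ T B ↔ t ∈ T B := by
  rw [mem_T, mem_T]
  constructor
  · rintro ⟨i, hi | hi⟩
    · refine ⟨i, Or.inr ?_⟩
      rw [← hi, add_assoc, one_add_one', add_zero]
    · exact ⟨i, Or.inl (add_right_cancel hi)⟩
  · rintro ⟨i, hi | hi⟩
    · exact ⟨i, Or.inr (by rw [hi])⟩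
    · exact ⟨i, Or.inl (by rw [hi, add_assoc, one_add_one', add_zero])⟩

section
variable {k lam : ℕ} {B : Fin v → Finset (Fin v)} (h : Des v k lam B) (hlam : 1 ≤ lam)
include h hlam

theorem ind_ne {i j : Fin v} : ind (B i) ≠ ind (B j) + 1 := by
  intro e
  have h1 := h.lam_lt hlam
  have h2 := h.v2 hlam
  by_cases hij : i = j
  · subst hij
    have h3 : S (ind (B i)) = - S (ind (B i)) := by
      conv_lhs => rw [e]
      exact S_add_one _
    have h4 := congrFun e ⟨0, by omega⟩
    simp only [Pi.add_apply, Pi.one_apply] at h4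
    generalize ind (B i) ⟨0, by omega⟩ = a at h4
    revert a; decide
  · have h3 := h.inter hlam hij
    have h4 : B i ∩ B j = ∅ := by
      ext x
      simp only [mem_inter, notMem_empty, iff_false, not_and]
      intro hx hy
      have := congrFun e x
      simp only [ind, hx, hy, if_true, Pi.add_apply, Pi.one_apply] at this
      exact absurd this (by decide)
    rw [h4, card_empty] at h3
    omega

theorem sum_T (f : (Fin v → ZMod 2) → ℕ) (hf : ∀ t, f (t + 1) = f t) :
    ∑ t ∈ T B, f t = 2 * ∑ i, f (ind (B i)) := by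
  unfold T
  rw [sum_union]
  · rw [sum_image, sum_image]
    · rw [sum_congr rfl (fun i _ => hf (ind (B i)))]
      ring
    · intro i _ j _ hij
      exact h.inj hlam (ind_inj (add_right_cancel hij))
    · intro i _ j _ hij
      exact h.inj hlam (ind_inj hij)
  · rw [disjoint_left]
    intro t ht ht'
    rw [mem_image] at ht ht'
    obtain ⟨i, -, hi⟩ := ht
    obtain ⟨j, -, hj⟩ := ht'
    exact ind_ne h hlam (hi.trans hj.symm)

theorem sum_T' (f : (Fin v → ZMod 2) → ℤ) (hf : ∀ t, f (t + 1) = f t) :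
    ∑ t ∈ T B, f t = 2 * ∑ i, f (ind (B i)) := by
  unfold T
  rw [sum_union]
  · rw [sum_image, sum_image]
    · rw [sum_congr rfl (fun i _ => hf (ind (B i)))]
      ring
    · intro i _ j _ hij
      exact h.inj hlam (ind_inj (add_right_cancel hij))
    · intro i _ j _ hij
      exact h.inj hlam (ind_inj hij)
  · rw [disjoint_left]
    intro t ht ht'
    rw [mem_image] at ht ht'
    obtain ⟨i, -, hi⟩ := ht
    obtain ⟨j, -, hj⟩ := ht'
    exact ind_ne h hlam (hi.trans hj.symm)

theorem card_T : (T B).card = 2 * v := by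
  rw [card_eq_sum_ones, sum_T h hlam (fun _ => 1) (fun _ => rfl)]
  simp

/-- the number of triples of blocks without the symmetric difference property -/
theorem badT_eq : badT (T B) = 8 * ∑ i, ∑ j, ∑ l,
    (if ind (B i) + ind (B j) + ind (B l) ∉ T B then 1 else 0) := by
  unfold badT
  simp only [card_filter]
  have e1 : ∀ a b c : Fin v → ZMod 2, (a + 1) + b + c = (a + b + c) + 1 := by
    intro a b c; abel
  have e2 : ∀ a b c : Fin v → ZMod 2, a + (b + 1) + c = (a + b + c) + 1 := by
    intro a b c; abel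
  have e3 : ∀ a b c : Fin v → ZMod 2, a + b + (c + 1) = (a + b + c) + 1 := by
    intro a b c; abel
  rw [sum_T h hlam]
  · have : ∀ i, ∑ b ∈ T B, ∑ c ∈ T B, (if ind (B i) + b + c ∉ T B then 1 else 0) =
        4 * ∑ j, ∑ l, (if ind (B i) + ind (B j) + ind (B l) ∉ T B then 1 else 0) := by
      intro i
      rw [sum_T h hlam]
      · have : ∀ j, ∑ c ∈ T B, (if ind (B i) + ind (B j) + c ∉ T B then 1 else 0) =
            2 * ∑ l, (if ind (B i) + ind (B j) + ind (B l) ∉ T B then 1 else 0) := by
          intro j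
          rw [sum_T h hlam]
          intro t
          simp only [e3, mem_T_add_one]
        rw [sum_congr rfl (fun j _ => this j), ← mul_sum]
        ring
      · intro t
        simp only [e2, mem_T_add_one]
    rw [sum_congr rfl (fun j _ => this j), ← mul_sum]
    ring
  · intro t
    simp only [e1, mem_T_add_one]

end

end Pool.Agent.N345.SDP
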